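import Pool.Agent.H94.T1.S6
import Pool.Agent.H85.T1.FAMK

/-!
# T1: PRTK, the family is stable under small perturbations of the constant coefficient
-/

set_option autoImplicit false

namespace Pool.T1.PRTKaux

open Polynomial Matrix Pool.HYP Pool.TOW Pool.AVS IsDedekindDomain

variable {R : Type} [CommRing R] [IsDomain R] {K : Type} [Field K] [Algebra R K]
  {O : ValuationSubring K} {π : K}

omit [IsDomain R] in
theorem zerAdd {P : Ideal R} {p : R[X]} {w : R} (hp : Zer P p) (hw : w ∈ P) :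
    Zer P (p + C w) := by
  intro n
  rw [coeff_add, coeff_C]
  apply P.add_mem (hp n)
  split_ifs
  · exact hw
  · exact P.zero_mem

theorem fwd (hR : GR R O π) (g : ℕ) (D : Dat R O) (h : ℕ) (w : R)
    (hw : w ∈ Lm R O π ((((2 * g + 1) * h : ℕ) : ℤ) - 1)) (hT : ∀ P ∈ D.T, w ∈ P.asIdeal)
    (hT' : ∀ P ∈ D.T', w ∈ P.asIdeal) (f : R[X]) (hf : f ∈ Fam π g D h) :
    f + C w ∈ Fam π g D h := by
  obtain ⟨⟨hm, hd, hc⟩, htop, h1, h2⟩ := hf
  have hdeg : (C w : R[X]).degree < f.degree := by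
    rw [degree_eq_natDegree hm.ne_zero, hd]
    exact lt_of_le_of_lt degree_C_le (by exact_mod_cast Nat.succ_pos _)
  have hw1 : algebraMap R K w * π ^ ((2 * g + 1) * h) / π ∈ O := by
    have h3 : algebraMap R K w * π ^ ((2 * g + 1) * h) / π =
        algebraMap R K w * π ^ ((((2 * g + 1) * h : ℕ) : ℤ) - 1) := by
      rw [zpow_sub₀ hR.pi_ne, zpow_natCast, zpow_one, mul_div_assoc]
    rw [h3]
    exact hw
  have hw2 : algebraMap R K w * π ^ ((2 * g + 1) * h) ∈ O := by
    have h3 : algebraMap R K w * π ^ ((2 * g + 1) * h) =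
        algebraMap R K w * π ^ ((2 * g + 1) * h) / π * π := (div_mul_cancel₀ _ hR.pi_ne).symm
    rw [h3]
    exact O.mul_mem _ _ hw1 hR.pi_mem
  have hco : ∀ i ≤ 2 * g + 1, i ≠ 2 * g + 1 →
      (f + C w).coeff (2 * g + 1 - i) = f.coeff (2 * g + 1 - i) := by
    intro i hi hne
    rw [coeff_add, coeff_C, if_neg (by omega), add_zero]
  have hc0 : (f + C w).coeff (2 * g + 1 - (2 * g + 1)) =
      f.coeff (2 * g + 1 - (2 * g + 1)) + w := by
    rw [coeff_add, coeff_C, if_pos (Nat.sub_self _)]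
  refine ⟨⟨hm.add_of_left hdeg, by rw [natDegree_add_C, hd], ?_⟩, ?_, ?_, ?_⟩
  · intro i hi
    by_cases hne : i = 2 * g + 1
    · subst hne
      rw [hc0]
      have h4 := hc _ le_rfl
      simp only [Lm, Set.mem_ofPred_eq, zpow_natCast] at h4 ⊢
      rw [map_add, add_mul]
      exact O.add_mem _ _ h4 hw2
    · rw [hco i hi hne]
      exact hc i hi
  · intro i hi z hz
    by_cases hne : i = 2 * g + 1
    · subst hne
      rw [hc0, map_add, add_mul] at hz
      have h4 : ((z - ⟨_, hw2⟩ : O) : K) =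
          algebraMap R K (f.coeff (2 * g + 1 - (2 * g + 1))) * π ^ ((2 * g + 1) * h) := by
        have h5 : ((z - ⟨_, hw2⟩ : O) : K) =
            (z : K) - algebraMap R K w * π ^ ((2 * g + 1) * h) := rfl
        rw [h5, hz, add_sub_cancel_right]
      have h6 := htop _ le_rfl _ h4
      rw [← h6, FAMKaux.resEq hR]
      have h7 : (z : K) - ((z - ⟨_, hw2⟩ : O) : K) =
          algebraMap R K w * π ^ ((2 * g + 1) * h) := by
        rw [h4, hz, add_sub_cancel_left]
      rw [h7]
      exact hw1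
    · rw [hco i hi hne] at hz
      exact htop i hi z hz
  · intro P hP
    have h3 : f + C w - (X - C (D.c P)) * D.γ P = f - (X - C (D.c P)) * D.γ P + C w := by ring
    rw [h3]
    exact zerAdd (h1 P hP) (hT P hP)
  · intro P hP
    have h3 : f + C w - D.ρ P = f - D.ρ P + C w := by ring
    rw [h3]
    exact zerAdd (h2 P hP) (hT' P hP)

end Pool.T1.PRTKaux

namespace Pool.T1

open Polynomial Matrix Pool.HYP Pool.TOW Pool.AVS IsDedekindDomain

theorem prtk : PRTKStmt := by
  intro R _ _ K _ _ _ O π hR g D h w hw hT hT' f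
  constructor
  · intro hf
    have h1 := PRTKaux.fwd hR g D h (-w) (by
      simp only [Lm, Set.mem_ofPred_eq, map_neg, neg_mul] at hw ⊢
      exact O.neg_mem _ hw) (fun P hP => P.asIdeal.neg_mem (hT P hP))
      (fun P hP => P.asIdeal.neg_mem (hT' P hP)) _ hf
    rwa [C_neg, add_neg_cancel_right] at h1
  · exact fun hf => PRTKaux.fwd hR g D h w hw hT hT' f hf

end Pool.T1
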