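import Pool.Agent.H88.T1.TRAK
import Pool.Agent.H29.T1.ZS

/-!
# T1T, row ZTRA: translation of `x` and Selmer groups over extensions
-/

set_option autoImplicit false

namespace Pool.T1

open Polynomial Pool.HYP Pool.HYP.H20 Pool.TOW IsDedekindDomain

namespace ZTRAaux

variable {R : Type} [CommRing R] {K : Type} [Field K] [Algebra R K]

theorem fkE_comp (E : Type) [Field E] [Algebra K E] (f : R[X]) (r : R) :
    fkE K E (f.comp (X + C r)) =
      (fkE K E f).comp (X + C (algebraMap K E (algebraMap R K r))) := by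
  simp [fkE, fk, Polynomial.map_comp]

theorem selE_comp (E : Type) [Field E] [Algebra K E] (f : R[X]) (r : R)
    (h : SelK (fkE K E f)) : SelK (fkE K E (f.comp (X + C r))) := by
  rw [fkE_comp]
  exact TRAK.sel_comp _ _ h

end ZTRAaux

namespace ZTRAaux

variable {R : Type} [CommRing R] [IsDedekindDomain R] {K : Type} [Field K] [Algebra R K]
  [IsFractionRing R K]

theorem tow_comp (T : Finset (HeightOneSpectrum R)) (f : R[X]) (r : R) (h : TowP K T f) :
    TowP K T (f.comp (X + C r)) := by
  intro E _ _ h1 h2 h3 h4 h5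
  refine selE_comp E f r (h E h1 h2 h3 h4 fun P => ?_)
  rcases h5 P with h6 | h6
  · exact Or.inl h6
  · refine Or.inr ?_
    have hm : P.asIdeal.IsPrime := P.isPrime
    rw [md, Polynomial.map_comp, Polynomial.map_add, map_X, map_C] at h6
    exact (irreducible_comp_add _ _).1 h6

end ZTRAaux

theorem ztra : ZTRAStmt := by
  intro R _ _ K _ _ _ T f c _
  have e : (X - C c : R[X]) = X + C (-c) := by rw [C_neg, sub_eq_add_neg]
  rw [e]
  refine ⟨⟨fun h => ?_, ZTRAaux.tow_comp T f (-c)⟩, fun E _ _ => ⟨fun h => ?_,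
    ZTRAaux.selE_comp E f (-c)⟩⟩
  · have h1 := ZTRAaux.tow_comp T _ c h
    rwa [comp_comp_add'] at h1
  · have h1 := ZTRAaux.selE_comp E _ c h
    rwa [comp_comp_add'] at h1

end Pool.T1
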